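import Pool.Agent.H3.MonoAP

set_option autoImplicit false

namespace Pool.Agent.Results.MP_6bff71_co.BeatRandom

open Finset Pool.Agent.H3.MonoAP

/-- For all `k ≥ 3`, `r ≥ 2` there are `δ` below the random rate and `r`-colourings of `[n]`
with `δ n² + O(n)` monochromatic `k`-term progressions. -/
theorem result (k r : ℕ) (hk : 3 ≤ k) (hr : 2 ≤ r) :
    ∃ δ : ℝ, δ < 1 / (2 * ((k : ℝ) - 1) * (r : ℝ) ^ (k - 1)) ∧ ∃ C : ℝ, ∀ n : ℕ,
      ∃ χ : ℕ → Fin r,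
        |(({P : Finset ℕ | (∃ a d : ℕ, 1 ≤ a ∧ 1 ≤ d ∧
              P = (Finset.range k).image (fun i => a + i * d)) ∧
            P ⊆ Finset.Icc 1 n ∧ ∀ x ∈ P, ∀ y ∈ P, χ x = χ y}.ncard : ℕ) : ℝ) - δ * (n : ℝ) ^ 2|
          ≤ C * n := by
  obtain ⟨μ, rfl⟩ : ∃ μ, k = μ + 2 := ⟨k - 2, by omega⟩
  obtain ⟨ρ, rfl⟩ : ∃ ρ, r = ρ + 2 := ⟨r - 2, by omega⟩
  obtain ⟨δ, h1, C, h2⟩ := main μ ρ (by omega)
  refine ⟨δ, ?_, C, fun n => ?_⟩
  · have : ((μ + 2 : ℕ) : ℝ) - 1 = μ + 1 := by push_cast; ring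
    rw [this]
    exact_mod_cast h1
  obtain ⟨χ, hχ⟩ := h2 n
  refine ⟨χ, ?_⟩
  have key : ∀ a d a' d' : ℕ, (range (μ + 2)).image (fun i => a + i * d) =
      (range (μ + 2)).image (fun i => a' + i * d') →
      a' ≤ a ∧ a + (μ + 1) * d ≤ a' + (μ + 1) * d' := by
    intro a d a' d' e
    obtain ⟨i, -, hi⟩ := mem_image.1 (e ▸ mem_image_of_mem _ (mem_range.2 (Nat.succ_pos _)) :
      a + 0 * d ∈ (range (μ + 2)).image (fun i => a' + i * d'))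
    obtain ⟨j, hj, hj'⟩ := mem_image.1 (e ▸ mem_image_of_mem _ (mem_range.2 (Nat.lt_succ_self _)) :
      a + (μ + 1) * d ∈ (range (μ + 2)).image (fun i => a' + i * d'))
    have : j * d' ≤ (μ + 1) * d' := Nat.mul_le_mul_right _ (by have := mem_range.1 hj; omega)
    omega
  obtain ⟨S, hS, hM⟩ : ∃ S : Finset (ℕ × ℕ), (∀ p, p ∈ S ↔ p ∈ A (μ + 2) n ∧
      ∀ i ∈ range (μ + 2), χ (p.1 + i * p.2) = χ p.1) ∧ M (μ + 2) n χ = S.card :=
    ⟨_, fun p => mem_filter, rfl⟩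
  have : {P : Finset ℕ | (∃ a d : ℕ, 1 ≤ a ∧ 1 ≤ d ∧
        P = (Finset.range (μ + 2)).image (fun i => a + i * d)) ∧
      P ⊆ Finset.Icc 1 n ∧ ∀ x ∈ P, ∀ y ∈ P, χ x = χ y} =
      ((S.image fun p : ℕ × ℕ => (range (μ + 2)).image (fun i => p.1 + i * p.2) :
        Finset (Finset ℕ)) : Set (Finset ℕ)) := by
    ext P
    simp only [Set.mem_ofPred_eq, mem_coe, mem_image, hS]
    constructor
    · rintro ⟨⟨a, d, ha, hd, rfl⟩, h3, h4⟩
      refine ⟨(a, d), ⟨(mem_A (by omega)).2 ⟨ha, hd, ?_⟩, fun i hi => ?_⟩, rfl⟩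
      · exact (mem_Icc.1 (h3 (mem_image_of_mem _ (mem_range.2 (Nat.lt_succ_self _))))).2
      · exact h4 _ (mem_image_of_mem _ hi) _
          (mem_image.2 ⟨0, mem_range.2 (Nat.succ_pos _), by simp⟩)
    · rintro ⟨p, ⟨h3, h4⟩, rfl⟩
      obtain ⟨a1, a2, a3⟩ := (mem_A (by omega)).1 h3
      refine ⟨⟨p.1, p.2, a1, a2, rfl⟩, fun x hx => ?_, fun x hx y hy => ?_⟩
      · obtain ⟨i, hi, rfl⟩ := mem_image.1 hx
        have : i * p.2 ≤ (μ + 2 - 1) * p.2 :=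
          Nat.mul_le_mul_right _ (by have := mem_range.1 hi; omega)
        rw [mem_Icc]
        omega
      · obtain ⟨i, hi, rfl⟩ := mem_image.1 hx
        obtain ⟨j, hj, rfl⟩ := mem_image.1 hy
        rw [h4 i hi, h4 j hj]
  rw [this, Set.ncard_coe_finset, card_image_of_injOn]
  · rw [← hM]
    exact hχ
  · intro p _ q _ e
    have e1 := key _ _ _ _ e
    have e2 := key _ _ _ _ e.symm
    exact Prod.ext (by omega) (Nat.eq_of_mul_eq_mul_left (show 0 < μ + 1 by omega) (by omega))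

end Pool.Agent.Results.MP_6bff71_co.BeatRandom
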